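import Mathlib

namespace Pool.Agent.H.MP_c909fd_al
open CategoryTheory TopologicalSpace Opposite Filter Topology

variable {X : Type} [TopologicalSpace X]

theorem isSheaf_of (A : Opens X ⥤ AddCommGrpCat.{0})
    (h : ∀ (E : AddCommGrpCat.{0}) (U : Opens X) (R : Opens X → Prop) (hR : ∀ V, R V → V ≤ U)
      (down : ∀ V W, R V → W ≤ V → R W) (_ : ∀ q ∈ U, ∃ V, R V ∧ q ∈ V)
      (y : ∀ V, R V → (A.obj V ⟶ E))
      (_ : ∀ V W (hV : R V) (h : W ≤ V), y W (down V W hV h) = A.map (homOfLE h) ≫ y V hV),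
      ∃! t : A.obj U ⟶ E, ∀ V hV, A.map (homOfLE (hR V hV)) ≫ t = y V hV) :
    Presheaf.IsSheaf (Opens.grothendieckTopology X) A.op := by
  intro E U S hS x hx
  rw [Presieve.compatible_iff_sieveCompatible] at hx
  obtain ⟨t, h1, h2⟩ := h E.unop U (fun V => ∃ h : V ≤ U, S (homOfLE h)) (fun V h => h.1)
    (fun V W hV h => ⟨h.trans hV.1, S.downward_closed hV.2 (homOfLE h)⟩)
    (fun q hq => by
      obtain ⟨V, f, hf, hV⟩ := hS q hq
      exact ⟨V, ⟨f.le, hf⟩, hV⟩)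
    (fun V hV => Quiver.Hom.unop (x (homOfLE hV.1) hV.2))
    (fun V W hV h => congrArg Quiver.Hom.unop (hx (homOfLE hV.1) (homOfLE h) hV.2))
  refine ⟨t.op, fun V f hf => Quiver.Hom.unop_inj (h1 V ⟨f.le, hf⟩), fun t' ht' => ?_⟩
  exact Quiver.Hom.unop_inj (h2 (Quiver.Hom.unop t') fun V hV =>
    congrArg Quiver.Hom.unop (ht' (homOfLE hV.1) hV.2))

theorem sep {A : Opens X ⥤ AddCommGrpCat.{0}}
    (hA : Presheaf.IsSheaf (Opens.grothendieckTopology X) A.op) {E : AddCommGrpCat.{0}}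
    {U V W : Opens X} (hV : V ≤ U) (hW : W ≤ U) (hc : ∀ q ∈ U, q ∈ V ∨ q ∈ W)
    (t t' : A.obj U ⟶ E) (h1 : A.map (homOfLE hV) ≫ t = A.map (homOfLE hV) ≫ t')
    (h2 : A.map (homOfLE hW) ≫ t = A.map (homOfLE hW) ≫ t') : t = t' := by
  let S : Sieve U := ⟨fun Y _ => Y ≤ V ∨ Y ≤ W, fun h g => h.imp g.le.trans g.le.trans⟩
  have hS : S ∈ Opens.grothendieckTopology X U := fun q hq =>
    (hc q hq).elim (fun h => ⟨V, homOfLE hV, Or.inl le_rfl, h⟩)
      fun h => ⟨W, homOfLE hW, Or.inr le_rfl, h⟩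
  refine Quiver.Hom.op_inj ((hA (op E) S hS).isSeparatedFor.ext fun Y f hf => ?_)
  apply Quiver.Hom.unop_inj
  change A.map f ≫ t = A.map f ≫ t'
  rcases hf with h | h
  · rw [show f = homOfLE h ≫ homOfLE hV from rfl, A.map_comp, Category.assoc, h1, Category.assoc]
  · rw [show f = homOfLE h ≫ homOfLE hW from rfl, A.map_comp, Category.assoc, h2, Category.assoc]

/-- stalk group of the skyscraper -/
def SS (x : X) (U : Opens X) : AddSubgroup ℤ where
  carrier := {z | x ∈ U ∨ z = 0}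
  zero_mem' := Or.inr rfl
  add_mem' := by
    rintro a b (h | rfl) hb
    · exact Or.inl h
    · rwa [zero_add]
  neg_mem' := fun h => h.imp id neg_eq_zero.2

theorem SS_mono (x : X) {U V : Opens X} (h : U ≤ V) : SS x U ≤ SS x V := fun _ hz =>
  hz.imp (fun a => h a) id

def sky (x : X) : Opens X ⥤ AddCommGrpCat.{0} where
  obj U := AddCommGrpCat.of (SS x U)
  map f := AddCommGrpCat.ofHom (AddSubgroup.inclusion (SS_mono x f.le))

theorem sky_sheaf (x : X) : Presheaf.IsSheaf (Opens.grothendieckTopology X) (sky x).op := by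
  refine isSheaf_of _ fun E U R hR down cov y hy => ?_
  by_cases hx : x ∈ U
  · obtain ⟨V₀, h0, hx0⟩ := cov x hx
    refine ⟨AddCommGrpCat.ofHom (AddSubgroup.inclusion fun z _ => Or.inl hx0) ≫ y V₀ h0, ?_, ?_⟩
    · intro V hV
      ext ⟨z, hz⟩
      rcases hz with hz | rfl
      · have a := ConcreteCategory.congr_hom (hy V (V ⊓ V₀) hV inf_le_left) ⟨z, Or.inl ⟨hz, hx0⟩⟩
        have b := ConcreteCategory.congr_hom (hy V₀ (V ⊓ V₀) h0 inf_le_right) ⟨z, Or.inl ⟨hz, hx0⟩⟩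
        exact b.symm.trans a
      · exact (map_zero _).trans (map_zero _).symm
    · intro t ht
      rw [← ht V₀ h0]; rfl
  · refine ⟨0, fun V hV => ?_, fun t _ => ?_⟩
    · ext ⟨z, hz⟩
      rcases hz with hz | rfl
      · exact (hx (hR V hV hz)).elim
      · exact (map_zero _).trans (map_zero _).symm
    · ext ⟨z, hz⟩
      rcases hz with hz | rfl
      · exact (hx hz).elim
      · exact (map_zero _).trans (map_zero _).symm

variable (p : ℕ → X)

def Rel (U : Opens X) : AddSubgroup (FreeAbelianGroup U) := AddSubgroup.closure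
  {r | (∃ (a b : U) (s : Set X), IsPreconnected s ∧ s ⊆ U ∧ a.1 ∈ s ∧ b.1 ∈ s ∧
      r = FreeAbelianGroup.of a - FreeAbelianGroup.of b) ∨
    ∃ (n : ℕ) (h : p n ∈ U), r = (2 ^ n : ℤ) • FreeAbelianGroup.of ⟨p n, h⟩}

abbrev BB (U : Opens X) : Type := FreeAbelianGroup U ⧸ Rel p U

def gen {U : Opens X} (a : U) : BB p U := QuotientAddGroup.mk (FreeAbelianGroup.of a)

theorem gen_eq {U : Opens X} (a b : U) {s : Set X} (h : IsPreconnected s) (h1 : s ⊆ U)
    (ha : a.1 ∈ s) (hb : b.1 ∈ s) : gen p a = gen p b := by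
  rw [← sub_eq_zero, gen, gen, ← QuotientAddGroup.mk_sub, QuotientAddGroup.eq_zero_iff]
  exact AddSubgroup.subset_closure (Or.inl ⟨a, b, s, h, h1, ha, hb, rfl⟩)

theorem gen_tors {U : Opens X} (n : ℕ) (h : p n ∈ U) : (2 ^ n : ℤ) • gen p ⟨p n, h⟩ = 0 := by
  rw [gen, ← QuotientAddGroup.mk_zsmul, QuotientAddGroup.eq_zero_iff]
  exact AddSubgroup.subset_closure (Or.inr ⟨n, h, rfl⟩)

def blift {U : Opens X} {E : Type} [AddCommGroup E] (φ : U → E)
    (h1 : ∀ (a b : U) (s : Set X), IsPreconnected s → s ⊆ U → a.1 ∈ s → b.1 ∈ s → φ a = φ b)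
    (h2 : ∀ (n : ℕ) (h : p n ∈ U), (2 ^ n : ℤ) • φ ⟨p n, h⟩ = 0) : BB p U →+ E :=
  QuotientAddGroup.lift _ (FreeAbelianGroup.lift φ) ((AddSubgroup.closure_le _).2 (by
    rintro _ (⟨a, b, s, a1, a2, a3, a4, rfl⟩ | ⟨n, h, rfl⟩)
    · simp [h1 a b s a1 a2 a3 a4]
    · simpa using h2 n h))

@[simp] theorem blift_gen {U : Opens X} {E : Type} [AddCommGroup E] (φ : U → E) (h1) (h2) (a : U) :
    blift p φ h1 h2 (gen p a) = φ a := FreeAbelianGroup.lift_apply_of φ a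

theorem bext {U : Opens X} {E : Type} [AddCommGroup E] {f g : BB p U →+ E}
    (h : ∀ a, f (gen p a) = g (gen p a)) : f = g := by
  ext a; exact h a

def bmap {U V : Opens X} (h : U ≤ V) : BB p U →+ BB p V :=
  blift p (fun a => gen p ⟨a.1, h a.2⟩)
    (fun _ _ _ a1 a2 a3 a4 => gen_eq p _ _ a1 (a2.trans h) a3 a4) fun n _ => gen_tors p n _

@[simp] theorem bmap_gen {U V : Opens X} (h : U ≤ V) (a : U) :
    bmap p h (gen p a) = gen p ⟨a.1, h a.2⟩ := blift_gen _ _ _ _ _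

def BF : Opens X ⥤ AddCommGrpCat.{0} where
  obj U := AddCommGrpCat.of (BB p U)
  map f := AddCommGrpCat.ofHom (bmap p f.le)
  map_id U := AddCommGrpCat.hom_ext (bext p fun a => by simp)
  map_comp f g := AddCommGrpCat.hom_ext (bext p fun a => by simp)

theorem BF_sheaf [LocallyConnectedSpace X] :
    Presheaf.IsSheaf (Opens.grothendieckTopology X) (BF p).op := by
  refine isSheaf_of _ fun E U R hR down cov y hy => ?_
  choose V hV hq using cov
  let y' : ∀ W, R W → BB p W →+ E := fun W hW => (y W hW).hom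
  have hy' : ∀ V W (hV : R V) (h : W ≤ V) (a : W),
      y' W (down V W hV h) (gen p a) = y' V hV (gen p ⟨a.1, h a.2⟩) := fun V W hV h a =>
    (ConcreteCategory.congr_hom (hy V W hV h) (gen p a)).trans (congrArg (y' V hV) (bmap_gen p h a))
  let φ : U → E := fun a => y' (V a.1 a.2) (hV a.1 a.2) (gen p ⟨a.1, hq a.1 a.2⟩)
  have hφ : ∀ W (hW : R W) (a : W), φ ⟨a.1, hR W hW a.2⟩ = y' W hW (gen p a) := by
    intro W hW a
    have ha := hR W hW a.2
    have hm : a.1 ∈ W ⊓ V a.1 ha := ⟨a.2, hq a.1 ha⟩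
    exact (hy' (V a.1 ha) _ (hV _ _) inf_le_right ⟨a.1, hm⟩).symm.trans
      (hy' W _ hW inf_le_left ⟨a.1, hm⟩)
  have hl : IsLocallyConstant φ := by
    rw [IsLocallyConstant.iff_eventually_eq]
    intro a
    have h1 := connectedComponentIn_mem_nhds ((V a.1 a.2).2.mem_nhds (hq a.1 a.2))
    filter_upwards [continuous_subtype_val.continuousAt h1] with b hb
    have hb' := connectedComponentIn_subset _ _ hb
    rw [hφ _ (hV a.1 a.2) ⟨b.1, hb'⟩]
    exact congrArg _ (gen_eq p _ _ isPreconnected_connectedComponentIn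
      (connectedComponentIn_subset _ _) hb (mem_connectedComponentIn (hq a.1 a.2)))
  have k1 : ∀ (a b : U) (s : Set X), IsPreconnected s → s ⊆ U → a.1 ∈ s → b.1 ∈ s →
      φ a = φ b := by
    intro a b s a1 a2 a3 a4
    refine hl.apply_eq_of_isPreconnected (s := Subtype.val ⁻¹' s) ?_ a3 a4
    rw [← IsInducing.subtypeVal.isPreconnected_image]
    convert a1
    exact Set.image_preimage_eq_of_subset fun q hq => ⟨⟨q, a2 hq⟩, rfl⟩
  have k2 : ∀ (n : ℕ) (h : p n ∈ U), (2 ^ n : ℤ) • φ ⟨p n, h⟩ = 0 := by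
    intro n h
    simp only [φ]
    rw [← map_zsmul, gen_tors, map_zero]
  refine ⟨AddCommGrpCat.ofHom (blift p φ k1 k2), fun W hW => ?_, fun t ht => ?_⟩
  · refine AddCommGrpCat.hom_ext (bext p fun a => Eq.trans ?_ (hφ W hW a))
    change blift p φ k1 k2 (bmap p (hR W hW) (gen p a)) = _
    rw [bmap_gen, blift_gen]
  · refine AddCommGrpCat.hom_ext (bext p fun a => Eq.trans ?_ (blift_gen p φ k1 k2 a).symm)
    exact (congrArg t.hom (bmap_gen p (hR _ (hV a.1 a.2)) ⟨a.1, hq a.1 a.2⟩)).symm.trans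
      (ConcreteCategory.congr_hom (ht _ (hV a.1 a.2)) (gen p ⟨a.1, hq a.1 a.2⟩))

open Classical in
noncomputable def pt (x : X) (U : Opens X) : BB p U := if h : x ∈ U then gen p ⟨x, h⟩ else 0

noncomputable def FF (x : X) (a : ℤ) : sky x ⟶ BF p where
  app U := AddCommGrpCat.ofHom
    (((zmultiplesHom (BB p U)) (a • pt p x U)).comp (SS x U).subtype)
  naturality U V f := by
    ext ⟨z, hz⟩
    change z • a • pt p x V = bmap p f.le (z • a • pt p x U)
    rcases hz with hz | rfl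
    · simp [pt, hz, f.le hz]
    · simp

theorem FF_app (x : X) (a : ℤ) (U : Opens X) (z : SS x U) :
    ((FF p x a).app U).hom z = z.1 • a • pt p x U := rfl

variable [T1Space X] {x : X} (hp : ∀ n, p n ≠ x)
include hp

theorem exists_psi (m : ℕ) : ∃ V : Opens X, x ∈ V ∧ ∀ W ≤ V, x ∈ W →
    ∃ ψ : BB p W →+ ZMod (2 ^ m), ψ (pt p x W) = 1 := by
  refine ⟨⟨(p '' Set.Iio m)ᶜ, ((Set.finite_Iio m).image p).isClosed.isOpen_compl⟩, ?_,
    fun W hW hx => ⟨blift p (fun _ => 1) (fun _ _ _ _ _ _ _ => rfl) fun n h => ?_, ?_⟩⟩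
  · rintro ⟨n, -, h⟩; exact hp n h
  · have : m ≤ n := not_lt.1 fun h' => hW h ⟨n, h', rfl⟩
    rw [zsmul_one, ZMod.intCast_zmod_eq_zero_iff_dvd]
    exact_mod_cast pow_dvd_pow 2 this
  · simp [pt, hx]

omit hp in
theorem eq_of_mod {a b : ℤ} (h : ∀ m : ℕ, (a : ZMod (2 ^ m)) = b) : a = b := by
  rw [← sub_eq_zero]
  refine Int.eq_zero_of_abs_lt_dvd (m := 2 ^ (a - b).natAbs) ?_ ?_
  · exact_mod_cast (ZMod.intCast_eq_intCast_iff_dvd_sub b a _).1 (h _).symm
  · rw [Int.abs_eq_natAbs]; exact_mod_cast Nat.lt_two_pow_self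

theorem mono3 {C : Opens X ⥤ AddCommGrpCat.{0}}
    (hC : Presheaf.IsSheaf (Opens.grothendieckTopology X) C.op) (g h : C ⟶ sky x)
    (e : g ≫ FF p x 3 = h ≫ FF p x 3) : g = h := by
  ext U c
  apply Subtype.ext
  by_cases hx : x ∈ U
  swap
  · exact ((g.app U c).2.resolve_left hx).trans ((h.app U c).2.resolve_left hx).symm
  refine mul_right_cancel₀ (three_ne_zero (α := ℤ)) (eq_of_mod fun m => ?_)
  obtain ⟨V, hV, hψ⟩ := exists_psi p hp m
  obtain ⟨ψ, hψ⟩ := hψ (U ⊓ V) inf_le_right ⟨hx, hV⟩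
  let r : (sky x).obj U ⟶ AddCommGrpCat.of (ZMod (2 ^ m)) := AddCommGrpCat.ofHom
    (((zmultiplesHom _) (3 : ZMod (2 ^ m))).comp (SS x U).subtype)
  have := sep hC (V := U ⊓ V) (W := U ⊓ ⟨{x}ᶜ, isOpen_compl_singleton⟩) inf_le_left inf_le_left
    (fun q hq => by
      by_cases h : q = x
      · exact Or.inl ⟨hq, h ▸ hV⟩
      · exact Or.inr ⟨hq, h⟩) (g.app U ≫ r) (h.app U ≫ r) (by
      rw [← Category.assoc, ← Category.assoc, g.naturality, h.naturality]
      ext d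
      have := congrArg ψ (ConcreteCategory.congr_hom (NatTrans.congr_app e (U ⊓ V)) d)
      change ψ ((g.app _ d).1 • (3 : ℤ) • pt p x _) = ψ ((h.app _ d).1 • (3 : ℤ) • pt p x _) at this
      rw [map_zsmul, map_zsmul, map_zsmul, map_zsmul, hψ] at this
      change (g.app _ d).1 • (3 : ZMod (2 ^ m)) = (h.app _ d).1 • (3 : ZMod (2 ^ m))
      simpa using this) (by
      rw [← Category.assoc, ← Category.assoc, g.naturality, h.naturality]
      ext d
      change (g.app _ d).1 • (3 : ZMod (2 ^ m)) = (h.app _ d).1 • (3 : ZMod (2 ^ m))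
      rw [(g.app _ d).2.resolve_left fun h => h.2 rfl, (h.app _ d).2.resolve_left fun h => h.2 rfl])
  have := ConcreteCategory.congr_hom this c
  change (g.app _ c).1 • (3 : ZMod (2 ^ m)) = (h.app _ c).1 • (3 : ZMod (2 ^ m)) at this
  simpa using this

theorem no_lift (k : sky x ⟶ sky x) : k ≫ FF p x 3 ≠ FF p x 1 := by
  intro e
  have : (k.app ⊤ ⟨1, Or.inl trivial⟩).1 * 3 = 1 := eq_of_mod fun m => by
    obtain ⟨V, hV, hψ⟩ := exists_psi p hp m
    obtain ⟨ψ, hψ⟩ := hψ V le_rfl hV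
    have h1 := congrArg ψ (ConcreteCategory.congr_hom (NatTrans.congr_app e V) ⟨1, Or.inl hV⟩)
    change ψ ((k.app V ⟨1, Or.inl hV⟩).1 • (3 : ℤ) • pt p x _) = ψ ((1 : ℤ) • (1 : ℤ) • pt p x _) at h1
    rw [map_zsmul, map_zsmul, map_zsmul, map_zsmul, hψ] at h1
    have h2 : (k.app ⊤ ⟨1, Or.inl trivial⟩).1 = (k.app V ⟨1, Or.inl hV⟩).1 := congrArg Subtype.val
      (ConcreteCategory.congr_hom (k.naturality (homOfLE (le_top : V ≤ ⊤))) ⟨1, Or.inl hV⟩)
    rw [h2]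
    simpa using h1
  omega

omit hp [T1Space X] in
theorem eq13 [LocallyConnectedSpace X] (ht : Tendsto p atTop (𝓝 x))
    {C : Opens X ⥤ AddCommGrpCat.{0}} (g h : BF p ⟶ C)
    (e : FF p x 3 ≫ g = FF p x 3 ≫ h) : FF p x 1 ≫ g = FF p x 1 ≫ h := by
  ext U ⟨z, hz⟩
  let g' : BB p U →+ C.obj U := (g.app U).hom
  let h' : BB p U →+ C.obj U := (h.app U).hom
  change g' (z • (1 : ℤ) • pt p x U) = h' (z • (1 : ℤ) • pt p x U)
  rcases hz with hz | rfl
  swap
  · simp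
  have e1 : g' ((1 : ℤ) • (3 : ℤ) • pt p x U) = h' ((1 : ℤ) • (3 : ℤ) • pt p x U) :=
    ConcreteCategory.congr_hom (NatTrans.congr_app e U) ⟨1, Or.inl hz⟩
  obtain ⟨n, hn⟩ := (ht.eventually (connectedComponentIn_mem_nhds (U.2.mem_nhds hz))).exists
  have e2 : (2 ^ n : ℤ) • pt p x U = 0 := by
    rw [pt, dif_pos hz, gen_eq p ⟨x, hz⟩ ⟨p n, connectedComponentIn_subset _ _ hn⟩
      isPreconnected_connectedComponentIn (connectedComponentIn_subset _ _)
      (mem_connectedComponentIn hz) hn, gen_tors]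
  obtain ⟨a, b, hab⟩ : IsCoprime (3 : ℤ) (2 ^ n) := IsCoprime.pow_right (by norm_num)
  rw [← hab, add_smul, mul_smul, mul_smul, e2, smul_zero, add_zero, map_zsmul, map_zsmul,
    map_zsmul h', map_zsmul h']
  rw [one_smul] at e1
  rw [e1]

end Pool.Agent.H.MP_c909fd_al
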